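import Pool.Agent.Q234.KG.Stm

/-!
# Project KG, job PD: the product form of the ground state
-/

set_option autoImplicit false
set_option linter.unusedSectionVars false

open scoped BigOperators
open Finset

namespace Pool.Agent.Q176.KG

open Pool.Agent.Q234.KG

section
variable {V : Type} [Fintype V] [DecidableEq V] {d : ℕ} [NeZero d]

theorem cr_zero (a : Fin d) : cr (0 : Fin d) a = 1 := by
  unfold cr
  rw [Fin.val_zero]
  simp

theorem sp_eq_empty {m : V → Fin d} (h : sp m = ∅) : m = 0 := by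
  funext v
  by_contra hv
  have h1 : v ∈ sp m := by
    unfold sp
    rw [Finset.mem_filter]
    exact ⟨Finset.mem_univ _, hv⟩
  rw [h] at h1
  exact absurd h1 (Finset.notMem_empty v)

theorem ch_congr {m : V → Fin d} {X : Finset V} (hm : sp m = X) {σ τ : V → Fin d}
    (h : ∀ v ∈ X, σ v = τ v) : ch m σ = ch m τ := by
  unfold ch
  refine Finset.prod_congr rfl fun v _ => ?_
  by_cases hv : m v = 0
  · rw [hv, cr_zero, cr_zero]
  · have h1 : v ∈ sp m := by
      unfold sp
      rw [Finset.mem_filter]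
      exact ⟨Finset.mem_univ _, hv⟩
    rw [hm] at h1
    rw [h v h1]

theorem psi_prod (g : (V → Fin d) → ℂ) (hg : g 0 = 0) (σ : V → Fin d) :
    Psi g σ = ∏ X : Pol V, (1 + wX g X.1 σ) := by
  classical
  have h0 : ∑ m : V → Fin d, g m * ch m σ =
      ∑ X : Finset V, ∑ m ∈ univ.filter (fun m : V → Fin d => sp m = X), g m * ch m σ :=
    (Finset.sum_fiberwise_of_maps_to (fun m _ => Finset.mem_univ (sp m)) _).symm
  unfold Psi
  rw [h0, Complex.exp_sum]
  have h1 : ∀ X : Pol V, 1 + wX g X.1 σ =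
      Complex.exp (∑ m ∈ univ.filter (fun m : V → Fin d => sp m = X.1), g m * ch m σ) := by
    intro X
    unfold wX
    ring
  rw [Finset.prod_congr rfl fun X _ => h1 X]
  rw [← Finset.prod_subtype (univ.filter fun X : Finset V => X.Nonempty)
    (p := fun X : Finset V => X.Nonempty) (fun X => by simp)
    (fun X => Complex.exp (∑ m ∈ univ.filter (fun m : V → Fin d => sp m = X), g m * ch m σ))]
  rw [Finset.prod_filter]
  refine Finset.prod_congr rfl fun X _ => ?_
  by_cases hX : X.Nonempty
  · rw [if_pos hX]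
  · rw [if_neg hX, Finset.not_nonempty_iff_eq_empty.1 hX]
    have h2 : ∑ m ∈ univ.filter (fun m : V → Fin d => sp m = ∅), g m * ch m σ = 0 := by
      refine Finset.sum_eq_zero fun m hm => ?_
      rw [sp_eq_empty (Finset.mem_filter.1 hm).2, hg, zero_mul]
    rw [h2, Complex.exp_zero]

end

theorem main (h : FourS) : PrdS := by
  classical
  intro d _ V _ _ g hg σ
  refine ⟨psi_prod g hg σ, fun X => ?_⟩
  obtain ⟨h1, -, -, -, -, -, h7, -⟩ := h d V
  conv_lhs => rw [h1 (wX g X.1) σ]
  symm
  refine Finset.sum_subset (Finset.filter_subset _ _) fun m _ hm => ?_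
  have h2 : ¬ sp m ⊆ X.1 := fun h3 => hm (Finset.mem_filter.2 ⟨Finset.mem_univ _, h3⟩)
  rw [h7 (wX g X.1) X.1 ?_ m h2, zero_mul]
  intro σ τ hst
  unfold wX
  congr 2
  refine Finset.sum_congr rfl fun m hm => ?_
  rw [ch_congr (Finset.mem_filter.1 hm).2 hst]

end Pool.Agent.Q176.KG
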